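import Pool.Agent.MNW.StmtsA
import Pool.Agent.Helper2_MNT.LOC

set_option autoImplicit false

/-!
# MNW, row LOW: the local inequality (adapted from the row LOU of MNU)
-/

namespace Pool.Agent.MNW.H24

open Polynomial Pool.Agent.MNT Pool.Agent.MNW
open Pool.Agent.MNT.H2 (lev_sub_le log_eval)

theorem low (vlm : VlmStmt) (rep : RepStmt) (cnw : CnwStmt) : LowStmt := by
  intro g m A hTI E _ v c₀ e₂ hQ he₂ P _ _ R hR hP z hz e N U W c he hsol hharm p q p' q' hpq hpq'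
  have hg := hTI.g_ge
  have hm := hTI.m_ge
  have hm' := hTI.m_le
  have hA := hTI.A_nn
  have hA' := hTI.A_le
  have hc₀ : 0 ≤ c₀ := hQ.1
  obtain ⟨Λ, hΛ⟩ := rep E v c₀ hQ P (by omega) z hz
  obtain ⟨μ, hμ, hineq⟩ := hTI.tree P R hR hP Λ
  have hcnt := cnw g m A hg hm hm' hA hA' P Λ R (dis v z) _ hΛ
  have hRc : (Rᶜ.card : ℝ) = m := by
    rw [Finset.card_compl, hR, hP]
    have : 2 * g + 1 + m - (2 * g + 1) = m := by omega
    rw [this]
  have hg0 : (0 : ℝ) ≤ g := Nat.cast_nonneg g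
  have hm0 : (0 : ℝ) ≤ m := Nat.cast_nonneg m
  have hm13 : (m : ℝ) ≤ 13 := by exact_mod_cast hm'
  set n : ℝ := (Fintype.card P : ℝ) with hndef
  have hn0 : 0 ≤ n := Nat.cast_nonneg _
  have hnN : n ≤ 4 * g + 10 := by
    rw [hndef, hP]
    have : 2 * g + 1 + m ≤ 4 * g + 10 := by omega
    exact_mod_cast this
  -- the bound at each point
  have hx : ∀ x ∈ Rᶜ, (Real.log (v ((U x).eval (z x))) - Real.log (v (c x))) / N x ≤
      (e₂ + c₀ + 3 * (n * c₀)) + Λ.En (μ x) x := by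
    intro x hx
    have hxR : x ∉ R := Finset.mem_compl.1 hx
    obtain ⟨hs, hsp⟩ := hsol x hxR
    have hN : (0 : ℝ) < N x := by
      have := hs.pos
      exact_mod_cast this
    have hroot : z x ∉ (U x).roots := by
      intro h0
      exact hs.ev (isRoot_of_mem_roots h0)
    have hb := vlm E v c₀ hQ P R z hz Λ _ hΛ x (U x).roots hroot e₂ (by
      intro d hd hgr
      obtain ⟨p, hp, hh⟩ := hharm Λ hΛ d hd hgr
      exact ⟨p, hp, hh x hxR⟩) (μ x) (hμ x hxR)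
    have hcard : (Multiset.card (U x).roots : ℝ) = N x := by
      rw [← hsp.natDegree_eq_card_roots, hs.deg]
    rw [← log_eval v hs hsp, hcard] at hb
    rw [div_le_iff₀ hN]
    calc Real.log (v ((U x).eval (z x))) - Real.log (v (c x))
        ≤ (N x : ℝ) * (e₂ + c₀ + 3 * (n * c₀) + Λ.En (μ x) x) := hb
      _ = _ := by ring
  have hsum : ∑ x ∈ Rᶜ, (Real.log (v ((U x).eval (z x))) - Real.log (v (c x))) / N x ≤
      m * (e₂ + c₀ + 3 * (n * c₀)) + ∑ x ∈ Rᶜ, Λ.En (μ x) x := by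
    calc _ ≤ ∑ x ∈ Rᶜ, ((e₂ + c₀ + 3 * (n * c₀)) + Λ.En (μ x) x) := Finset.sum_le_sum hx
      _ = _ := by
        rw [Finset.sum_add_distrib, Finset.sum_const, nsmul_eq_mul, hRc]
  have hmul := mul_le_mul_of_nonneg_left hsum hA
  have habs := (abs_le.1 hcnt).1
  -- levels
  have h1 := (abs_le.1 (hΛ p' q' hpq')).2
  have h2 := (abs_le.1 (hΛ p q hpq)).1
  have h3 := lev_sub_le Λ {p', q'} {p, q}
  have h4 : dis v z p' q' - dis v z p q ≤ Λ.len + 2 * (n * c₀) := by linarith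
  have h5 := mul_le_mul_of_nonneg_left h4 (by norm_num : (0 : ℝ) ≤ 1 / 30)
  -- the error terms
  have hAm : A * m ≤ 13 * ((g : ℝ) + 1) ^ 2 := by
    calc A * m ≤ ((g : ℝ) + 1) ^ 2 * 13 := by gcongr
      _ = _ := by ring
  have hAm0 : 0 ≤ A * m := mul_nonneg hA hm0
  have e1 : A * m * e₂ ≤ E2 g * e₂ := by
    rw [E2]; gcongr
  have e2 : (A * m * (1 + 3 * n) + ((g : ℝ) + 4) ^ 2 * n ^ 3 + 2 * n) * c₀ ≤ E1 g * c₀ := by
    rw [E1]; gcongr
  have h10 : 0 ≤ n * c₀ := by positivity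
  have e3 : A * (m * (e₂ + c₀ + 3 * (n * c₀))) + ((g : ℝ) + 4) ^ 2 * n ^ 2 * (n * c₀) +
      2 * (n * c₀) = A * m * e₂ +
        (A * m * (1 + 3 * n) + ((g : ℝ) + 4) ^ 2 * n ^ 3 + 2 * n) * c₀ := by ring
  rw [mul_add] at h5 hmul
  linarith

end Pool.Agent.MNW.H24
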